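import Mathlib

/-!
# Continuous first-order logic: formulas, theories, stability, distance definable sets

Relational signatures, `[0, 1]`-valued predicates, metric of diameter at most `1`.
-/

set_option autoImplicit false

namespace Pool.Agent.H52DD

/-- A relational signature of continuous logic: predicate symbols with arities and moduli of uniform
continuity. The symbol for the metric is always present and is not listed. -/
structure Sig where
  Pred : Type
  arity : Pred → ℕ
  modulus : Pred → ℝ → ℝ
  modulus_pos : ∀ P ε, 0 < ε → 0 < modulus P ε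

variable {L : Sig}

/-- An `L`-structure whose underlying metric space is `M`, of diameter at most `1`. -/
structure Str (L : Sig) (M : Type) [MetricSpace M] where
  dist_le : ∀ x y : M, dist x y ≤ 1
  pred : (P : L.Pred) → (Fin (L.arity P) → M) → unitInterval
  pred_unif : ∀ P (ε : ℝ), 0 < ε → ∀ v w : Fin (L.arity P) → M,
    (∀ i, dist (v i) (w i) < L.modulus P ε) → |(pred P v : ℝ) - pred P w| ≤ ε

/-- Formulas with free variables among `x_0, …, x_{n-1}`: the metric and the predicate symbols applied
to variables, continuous functions `[0, 1]^m → [0, 1]` as connectives, and the quantifiers `sup` and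
`inf` over the last variable. -/
inductive Fml (L : Sig) : ℕ → Type
  | d {n : ℕ} : Fin n → Fin n → Fml L n
  | rel {n : ℕ} (P : L.Pred) : (Fin (L.arity P) → Fin n) → Fml L n
  | conn {n m : ℕ} : C(Fin m → unitInterval, unitInterval) → (Fin m → Fml L n) → Fml L n
  | sup {n : ℕ} : Fml L (n + 1) → Fml L n
  | inf {n : ℕ} : Fml L (n + 1) → Fml L n

theorem iSup_mem {M : Type} (f : M → unitInterval) : (⨆ y, (f y : ℝ)) ∈ Set.Icc (0 : ℝ) 1 :=
  ⟨Real.iSup_nonneg fun y => (f y).2.1, Real.iSup_le (fun y => (f y).2.2) zero_le_one⟩

theorem iInf_mem {M : Type} (f : M → unitInterval) : (⨅ y, (f y : ℝ)) ∈ Set.Icc (0 : ℝ) 1 := by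
  refine ⟨Real.iInf_nonneg fun y => (f y).2.1, ?_⟩
  rcases isEmpty_or_nonempty M with h | ⟨⟨y⟩⟩
  · rw [Real.iInf_of_isEmpty]; exact zero_le_one
  · exact (ciInf_le ⟨0, by rintro _ ⟨z, rfl⟩; exact (f z).2.1⟩ y).trans (f y).2.2

/-- The value of a formula in a structure at a tuple. -/
noncomputable def Fml.eval {M : Type} [MetricSpace M] (S : Str L M) :
    {n : ℕ} → Fml L n → (Fin n → M) → unitInterval
  | _, .d i j, v => ⟨dist (v i) (v j), dist_nonneg, S.dist_le _ _⟩
  | _, .rel P t, v => S.pred P (fun i => v (t i))
  | _, .conn u φ, v => u (fun i => (φ i).eval S v)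
  | _, .sup φ, v => ⟨⨆ y : M, (φ.eval S (Fin.snoc v y) : ℝ), iSup_mem _⟩
  | _, .inf φ, v => ⟨⨅ y : M, (φ.eval S (Fin.snoc v y) : ℝ), iInf_mem _⟩

/-- `S` is a model of the theory `T`, a set of closed conditions `σ = 0` for sentences `σ`. -/
def Models {M : Type} [MetricSpace M] (S : Str L M) (T : Set (Fml L 0)) : Prop :=
  ∀ σ ∈ T, σ.eval S Fin.elim0 = 0

/-- The complete theory of a structure: all the conditions `σ = 0` which hold in it. -/
def Th {M : Type} [MetricSpace M] (S : Str L M) : Set (Fml L 0) :=
  {σ | σ.eval S Fin.elim0 = 0}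

/-- The theory `T` is stable: no formula `φ(x, y)` has the order property in a model of `T`. -/
def Stable (T : Set (Fml L 0)) : Prop :=
  ∀ (M : Type) [MetricSpace M] [CompleteSpace M] [Nonempty M] (S : Str L M), Models S T →
    ∀ (n m : ℕ) (φ : Fml L (n + m)) (ε : ℝ), 0 < ε →
      ¬ ∃ (a : ℕ → Fin n → M) (b : ℕ → Fin m → M), ∀ i j : ℕ, i < j →
        ε ≤ |(φ.eval S (Fin.append (a i) (b j)) : ℝ) - φ.eval S (Fin.append (a j) (b i))|

/-- The `n`-tuples `x` and `y` have the same type over the set `A`. -/
def SameType {M : Type} [MetricSpace M] (S : Str L M) (A : Set M) {n : ℕ} (x y : Fin n → M) :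
    Prop :=
  ∀ (m : ℕ) (c : Fin m → M), (∀ i, c i ∈ A) → ∀ φ : Fml L (n + m),
    φ.eval S (Fin.append x c) = φ.eval S (Fin.append y c)

/-- `f` is a definable predicate over `A`: a uniform limit of formulas with parameters from `A`. -/
def DefPred {M : Type} [MetricSpace M] (S : Str L M) (A : Set M) {n : ℕ}
    (f : (Fin n → M) → ℝ) : Prop :=
  ∀ ε : ℝ, 0 < ε → ∃ (m : ℕ) (c : Fin m → M) (φ : Fml L (n + m)), (∀ i, c i ∈ A) ∧
    ∀ x : Fin n → M, |f x - φ.eval S (Fin.append x c)| ≤ ε

/-- The closed set `D` of `n`-tuples is d-definable over `A`: its distance function is a definable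
predicate over `A`. (`Metric.infDist` is the distance from a set for the maximum metric; it is `0`
for the empty set, so that the empty set counts as d-definable.) -/
def DDef {M : Type} [MetricSpace M] (S : Str L M) (A : Set M) {n : ℕ} (D : Set (Fin n → M)) :
    Prop :=
  IsClosed D ∧ DefPred S A (fun x => Metric.infDist x D)

/-- The theory `T` has enough d-definable sets (for types realised in the model): in every model, for
every set `A` of parameters and every tuple `a`, the set of realisations in the model of the type of
`a` over `A` is an intersection of sets which are d-definable over `A`. -/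
def HasEnough (T : Set (Fml L 0)) : Prop :=
  ∀ (M : Type) [MetricSpace M] [CompleteSpace M] [Nonempty M] (S : Str L M), Models S T →
    ∀ (A : Set M) (n : ℕ) (a : Fin n → M), ∃ C : Set (Set (Fin n → M)),
      (∀ D ∈ C, DDef S A D) ∧ {x | SameType S A x a} = ⋂₀ C

/-- For all cardinals `κ` from some point on, at most `κ` types over a set of at most `κ` parameters
are realised in a model of `T`. -/
def Superstable (T : Set (Fml L 0)) : Prop :=
  ∃ κ₀ : Cardinal.{0}, ∀ κ : Cardinal.{0}, κ₀ ≤ κ →
    ∀ (M : Type) [MetricSpace M] [CompleteSpace M] [Nonempty M] (S : Str L M), Models S T →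
      ∀ A : Set M, Cardinal.mk A ≤ κ → ∀ n : ℕ, ∃ X : Set (Fin n → M), Cardinal.mk X ≤ κ ∧
        ∀ x : Fin n → M, ∃ y ∈ X, SameType S A x y

/-! ### The example -/

open Filter Topology

/-- The signature with a single unary predicate symbol, with constant modulus `1`. -/
def L0 : Sig where
  Pred := Unit
  arity := fun _ => 1
  modulus := fun _ _ => 1
  modulus_pos := fun _ _ _ => one_pos

/-- The set `[0, 1] × ℕ`, to be equipped with the discrete metric. -/
def M0 : Type := unitInterval × ℕ

open Classical in
noncomputable instance instM0 : MetricSpace M0 where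
  dist x y := if x = y then 0 else 1
  dist_self x := by simp
  dist_comm x y := by simp [eq_comm]
  dist_triangle x y z := by
    by_cases h1 : x = y
    · subst h1
      simp
    · by_cases h2 : x = z
      · subst h2
        simp only [if_true]
        split_ifs <;> norm_num
      · simp only [h1, h2, if_false]
        split_ifs <;> norm_num
  eq_of_dist_eq_zero := by
    intro x y h
    by_contra hne
    simp [hne] at h

open Classical in
theorem dist_M0 {x y : M0} (h : x ≠ y) : dist x y = 1 := by
  change (if x = y then (0 : ℝ) else 1) = 1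
  rw [if_neg h]

theorem eq_of_dist_lt {x y : M0} (h : dist x y < 1) : x = y := by
  by_contra hne
  rw [dist_M0 hne] at h
  exact lt_irrefl _ h

instance : CompleteSpace M0 := by
  apply Metric.complete_of_cauchySeq_tendsto
  intro u hu
  rw [Metric.cauchySeq_iff'] at hu
  obtain ⟨N, hN⟩ := hu 1 one_pos
  refine ⟨u N, ?_⟩
  apply tendsto_const_nhds.congr'
  filter_upwards [eventually_ge_atTop N] with n hn
  exact (eq_of_dist_lt (hN n hn)).symm

instance : Nonempty M0 := ⟨((0 : unitInterval), (0 : ℕ))⟩

/-- The structure `[0, 1] × ℕ` with the discrete metric and the predicate `P(t, k) = t`. -/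
noncomputable def S0 : Str L0 M0 where
  dist_le x y := by
    by_cases h : x = y
    · subst h; simp
    · rw [dist_M0 h]
  pred _ v := (v (0 : Fin 1)).1
  pred_unif := by
    intro _ ε hε v w h
    have := eq_of_dist_lt (h (0 : Fin 1))
    rw [this]; simp [hε.le]

end Pool.Agent.H52DD
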