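import Pool.Agent.H52DD.Defs

set_option autoImplicit false

namespace Pool.Agent.H52DD

open Filter Topology

variable {L : Sig}

/-! ### Closing a formula under `sup` -/

/-- The sentence `sup_{x_0} … sup_{x_{k-1}} φ`. -/
def sups : {k : ℕ} → Fml L k → Fml L 0
  | 0, φ => φ
  | _ + 1, φ => sups (.sup φ)

theorem eval_sup_eq_zero {M : Type} [MetricSpace M] (S : Str L M) {k : ℕ} (φ : Fml L (k + 1))
    (v : Fin k → M) : (Fml.sup φ).eval S v = 0 ↔ ∀ y, φ.eval S (Fin.snoc v y) = 0 := by
  constructor
  · intro h y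
    have h1 : (⨆ y : M, (φ.eval S (Fin.snoc v y) : ℝ)) = 0 := congrArg Subtype.val h
    have h2 : (φ.eval S (Fin.snoc v y) : ℝ) ≤ ⨆ y : M, (φ.eval S (Fin.snoc v y) : ℝ) :=
      le_ciSup (f := fun y : M => (φ.eval S (Fin.snoc v y) : ℝ))
        ⟨1, by rintro _ ⟨z, rfl⟩; exact (φ.eval S (Fin.snoc v z)).2.2⟩ y
    apply Subtype.ext
    exact le_antisymm (h2.trans h1.le) (φ.eval S (Fin.snoc v y)).2.1
  · intro h
    apply Subtype.ext
    change (⨆ y : M, (φ.eval S (Fin.snoc v y) : ℝ)) = 0
    have : (fun y : M => (φ.eval S (Fin.snoc v y) : ℝ)) = fun _ => 0 := by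
      funext y; rw [h y]; rfl
    rw [this, Real.iSup_const_zero]

theorem eval_sups_eq_zero {M : Type} [MetricSpace M] (S : Str L M) {k : ℕ} (φ : Fml L k) :
    (sups φ).eval S Fin.elim0 = 0 ↔ ∀ v : Fin k → M, φ.eval S v = 0 := by
  induction k with
  | zero =>
    constructor
    · intro h v
      rw [Subsingleton.elim v Fin.elim0]; exact h
    · intro h; exact h _
  | succ k ih =>
    change (sups (Fml.sup φ)).eval S Fin.elim0 = 0 ↔ _
    rw [ih]
    constructor
    · intro h v
      have := (eval_sup_eq_zero S φ (Fin.init v)).1 (h _) (v (Fin.last k))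
      rwa [Fin.snoc_init_self] at this
    · intro h v
      rw [eval_sup_eq_zero]
      intro y; exact h _

/-! ### The value of the predicate -/

/-- The value of the predicate at `x`. -/
def pv {N : Type} [MetricSpace N] (S : Str L0 N) (x : N) : unitInterval :=
  S.pred () (fun _ => x)

/-! ### The axioms -/

/-- `min (r, 1 - r)`. -/
noncomputable def u1 : C(Fin 2 → unitInterval, unitInterval) where
  toFun v := min (v 0) (unitInterval.symm (v 0))
  continuous_toFun := by fun_prop

/-- All distances are `0` or `1`. -/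
noncomputable def ax1 : Fml L0 0 :=
  sups (k := 2) (.conn u1 (fun _ => .d 0 1))

theorem ax1_iff {N : Type} [MetricSpace N] (S : Str L0 N) :
    ax1.eval S Fin.elim0 = 0 ↔ ∀ x y : N, x ≠ y → dist x y = 1 := by
  unfold ax1
  rw [eval_sups_eq_zero]
  have key : ∀ v : Fin 2 → N, (Fml.conn u1 (fun _ => Fml.d (L := L0) 0 1)).eval S v = 0 ↔
      (dist (v 0) (v 1) = 0 ∨ dist (v 0) (v 1) = 1) := by
    intro v
    change min (⟨dist (v 0) (v 1), _⟩ : unitInterval) (unitInterval.symm ⟨dist (v 0) (v 1), _⟩) = 0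
      ↔ _
    constructor
    · intro h
      rcases min_eq_iff.1 h with ⟨h1, _⟩ | ⟨h1, _⟩
      · left; exact congrArg Subtype.val h1
      · right
        have := congrArg Subtype.val h1
        simp only [unitInterval.coe_symm_eq, Set.Icc.coe_zero] at this
        linarith
    · rintro (h | h)
      · apply Subtype.ext
        rw [Subtype.val_injective.injOn.eq_iff (Set.mem_univ _) (Set.mem_univ _)]
        apply le_antisymm
        · refine (min_le_left _ _).trans ?_
          change dist (v 0) (v 1) ≤ 0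
          exact h.le
        · exact unitInterval.nonneg'
      · apply le_antisymm
        · refine (min_le_right _ _).trans ?_
          change 1 - dist (v 0) (v 1) ≤ 0
          linarith
        · exact unitInterval.nonneg'
  constructor
  · intro h x y hxy
    rcases (key ![x, y]).1 (h _) with h1 | h1
    · exact absurd (dist_eq_zero.1 h1) hxy
    · exact h1
  · intro h v
    rw [key]
    by_cases hv : v 0 = v 1
    · left; rw [hv, dist_self]
    · right; exact h _ _ hv

/-- `|v_k - t| + ∑_{i < k} (1 - v_i)`, truncated at `1`. -/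
noncomputable def u2 (k : ℕ) (t : unitInterval) : C(Fin (k + 1) → unitInterval, unitInterval) where
  toFun v := Set.projIcc (0 : ℝ) 1 zero_le_one
    (|(v (Fin.last k) : ℝ) - t| + ∑ i : Fin k, (1 - (v i.castSucc : ℝ)))
  continuous_toFun := by
    apply continuous_projIcc.comp
    fun_prop

/-- The formulas `d(x_k, x_i)`, `i < k`, and `P(x_k)`. -/
def fam (k : ℕ) : Fin (k + 1) → Fml L0 (k + 1) :=
  Fin.snoc (α := fun _ => Fml L0 (k + 1)) (fun i : Fin k => .d (Fin.last k) i.castSucc)
    (.rel () (fun _ => Fin.last k))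

/-- For all `x_0, …, x_{k-1}` there is `y`, different from them, with `P(y)` close to `t`. -/
noncomputable def ax2 (k : ℕ) (t : unitInterval) : Fml L0 0 :=
  sups (k := k) (.inf (.conn (u2 k t) (fam k)))

theorem eval_fam {N : Type} [MetricSpace N] (S : Str L0 N) (k : ℕ) (t : unitInterval)
    (v : Fin k → N) (y : N) :
    (Fml.conn (u2 k t) (fam k)).eval S (Fin.snoc v y) =
      Set.projIcc (0 : ℝ) 1 zero_le_one (|(pv S y : ℝ) - t| + ∑ i : Fin k, (1 - dist y (v i))) := by
  change Set.projIcc (0 : ℝ) 1 zero_le_one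
    (|((fam k (Fin.last k)).eval S (Fin.snoc v y) : ℝ) - t| +
      ∑ i : Fin k, (1 - ((fam k i.castSucc).eval S (Fin.snoc v y) : ℝ))) = _
  have h1 : (fam k (Fin.last k)).eval S (Fin.snoc v y) = pv S y := by
    unfold fam
    rw [Fin.snoc_last]
    change S.pred () (fun _ => (Fin.snoc v y : Fin (k + 1) → N) (Fin.last k)) = _
    rw [Fin.snoc_last]; rfl
  have h2 : ∀ i : Fin k, ((fam k i.castSucc).eval S (Fin.snoc v y) : ℝ) = dist y (v i) := by
    intro i
    unfold fam
    rw [Fin.snoc_castSucc]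
    change dist ((Fin.snoc v y : Fin (k + 1) → N) (Fin.last k))
      ((Fin.snoc v y : Fin (k + 1) → N) i.castSucc) = _
    rw [Fin.snoc_last, Fin.snoc_castSucc]
  rw [h1]
  simp only [h2]

theorem ax2_imp {N : Type} [MetricSpace N] [Nonempty N] (S : Str L0 N) (k : ℕ) (t : unitInterval)
    (h : (ax2 k t).eval S Fin.elim0 = 0) (v : Fin k → N) (η : ℝ) (hη : 0 < η) :
    ∃ y, (∀ i, y ≠ v i) ∧ |(pv S y : ℝ) - t| < η := by
  unfold ax2 at h
  rw [eval_sups_eq_zero] at h
  have h1 : (⨅ y : N, ((Fml.conn (u2 k t) (fam k)).eval S (Fin.snoc v y) : ℝ)) = 0 :=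
    congrArg Subtype.val (h v)
  have h2 : (⨅ y : N, ((Fml.conn (u2 k t) (fam k)).eval S (Fin.snoc v y) : ℝ)) < min η 1 := by
    rw [h1]; exact lt_min hη one_pos
  obtain ⟨y, hy⟩ := exists_lt_of_ciInf_lt h2
  rw [eval_fam] at hy
  have hs : 0 ≤ ∑ i : Fin k, (1 - dist y (v i)) :=
    Finset.sum_nonneg fun i _ => sub_nonneg.2 (S.dist_le _ _)
  have hlt : |(pv S y : ℝ) - t| + ∑ i : Fin k, (1 - dist y (v i)) < min η 1 := by
    by_contra hcon
    push Not at hcon
    have : min η 1 ≤ (Set.projIcc (0 : ℝ) 1 zero_le_one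
        (|(pv S y : ℝ) - t| + ∑ i : Fin k, (1 - dist y (v i))) : ℝ) := by
      rw [Set.coe_projIcc]
      apply le_max_of_le_right
      exact le_min (min_le_right _ _) hcon
    exact absurd hy (not_lt.2 this)
  refine ⟨y, ?_, ?_⟩
  · intro i hyi
    have h3 : 1 - dist y (v i) ≤ ∑ i : Fin k, (1 - dist y (v i)) :=
      Finset.single_le_sum (f := fun i => 1 - dist y (v i))
        (fun i _ => sub_nonneg.2 (S.dist_le _ _)) (Finset.mem_univ i)
    rw [hyi, dist_self] at h3
    rw [hyi] at hlt
    have h4 := abs_nonneg ((pv S (v i) : ℝ) - t)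
    have h5 := hlt.trans_le (min_le_right _ _)
    linarith
  · have := hlt.trans_le (min_le_left _ _)
    linarith

theorem ax2_S0 (k : ℕ) (t : unitInterval) : (ax2 k t).eval S0 Fin.elim0 = 0 := by
  unfold ax2
  rw [eval_sups_eq_zero]
  intro v
  obtain ⟨z, hz1, hz⟩ : ∃ z : M0, z.1 = t ∧ ∀ i, z ≠ v i := by
    by_contra hcon
    push Not at hcon
    choose f hf using fun n : ℕ => hcon (t, n) rfl
    have : Function.Injective f := by
      intro a b hab
      have h1 := hf a
      rw [hab, ← hf b] at h1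
      exact congrArg Prod.snd h1
    exact not_injective_infinite_finite f this
  apply Subtype.ext
  change (⨅ y : M0, ((Fml.conn (u2 k t) (fam k)).eval S0 (Fin.snoc v y) : ℝ)) = 0
  apply le_antisymm
  · refine (ciInf_le ⟨0, by rintro _ ⟨z, rfl⟩; exact (Fml.eval S0 _ _).2.1⟩ z).trans ?_
    rw [eval_fam]
    have h1 : |(pv S0 z : ℝ) - t| = 0 := by
      change |(z.1 : ℝ) - t| = 0
      rw [hz1, sub_self, abs_zero]
    have h2 : ∑ i : Fin k, (1 - dist z (v i)) = 0 := by
      apply Finset.sum_eq_zero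
      intro i _
      rw [dist_M0 (hz i), sub_self]
    rw [h1, h2, add_zero]
    simp
  · exact Real.iInf_nonneg fun y => (Fml.eval S0 _ _).2.1

theorem ax1_S0 : ax1.eval S0 Fin.elim0 = 0 :=
  (ax1_iff S0).2 fun _ _ h => dist_M0 h

/-! ### Models of the theory -/

/-- The two properties of the models of `Th S0` which are used. -/
structure Nice {N : Type} [MetricSpace N] (S : Str L0 N) : Prop where
  disc : ∀ x y : N, x ≠ y → dist x y = 1
  many : ∀ (k : ℕ) (v : Fin k → N) (t : unitInterval) (η : ℝ), 0 < η →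
    ∃ y, (∀ i, y ≠ v i) ∧ |(pv S y : ℝ) - t| < η

theorem nice_of_models {N : Type} [MetricSpace N] [Nonempty N] (S : Str L0 N)
    (h : Models S (Th S0)) : Nice S where
  disc := (ax1_iff S).1 (h _ ax1_S0)
  many k v t η hη := ax2_imp S k t (h _ (ax2_S0 k t)) v η hη

theorem models_S0 : Models S0 (Th S0) := fun _ h => h

/-! ### Similar tuples have close values -/

/-- `v` and `w` have the same equalities between their coordinates, and close values of `P`. -/
def Sim {N : Type} [MetricSpace N] (S : Str L0 N) (δ : ℝ) {n : ℕ} (v w : Fin n → N) : Prop :=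
  (∀ i j, v i = v j ↔ w i = w j) ∧ ∀ i, |(pv S (v i) : ℝ) - pv S (w i)| < δ

theorem Sim.symm {N : Type} [MetricSpace N] {S : Str L0 N} {δ : ℝ} {n : ℕ} {v w : Fin n → N}
    (h : Sim S δ v w) : Sim S δ w v :=
  ⟨fun i j => (h.1 i j).symm, fun i => by rw [abs_sub_comm]; exact h.2 i⟩

theorem Sim.extend {N : Type} [MetricSpace N] {S : Str L0 N} (hS : Nice S) {δ : ℝ} (hδ : 0 < δ)
    {n : ℕ} {v w : Fin n → N} (h : Sim S δ v w) (y : N) :
    ∃ y', Sim S δ (Fin.snoc v y : Fin (n + 1) → N) (Fin.snoc w y') := by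
  classical
  by_cases hy : ∃ i, y = v i
  · obtain ⟨i₀, rfl⟩ := hy
    refine ⟨w i₀, ?_, ?_⟩
    · intro i j
      induction i using Fin.lastCases with
      | last =>
        induction j using Fin.lastCases with
        | last => simp
        | cast j => simp only [Fin.snoc_last, Fin.snoc_castSucc]; exact h.1 _ _
      | cast i =>
        induction j using Fin.lastCases with
        | last => simp only [Fin.snoc_last, Fin.snoc_castSucc]; exact h.1 _ _
        | cast j => simp only [Fin.snoc_castSucc]; exact h.1 _ _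
    · intro i
      induction i using Fin.lastCases with
      | last => simp only [Fin.snoc_last]; exact h.2 _
      | cast i => simp only [Fin.snoc_castSucc]; exact h.2 _
  · push Not at hy
    obtain ⟨y', hy', hd⟩ := hS.many n w (pv S y) δ hδ
    refine ⟨y', ?_, ?_⟩
    · intro i j
      induction i using Fin.lastCases with
      | last =>
        induction j using Fin.lastCases with
        | last => simp
        | cast j =>
          simp only [Fin.snoc_last, Fin.snoc_castSucc]
          exact iff_of_false (hy j) (hy' j)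
      | cast i =>
        induction j using Fin.lastCases with
        | last =>
          simp only [Fin.snoc_last, Fin.snoc_castSucc]
          exact iff_of_false (hy i).symm (hy' i).symm
        | cast j => simp only [Fin.snoc_castSucc]; exact h.1 _ _
    · intro i
      induction i using Fin.lastCases with
      | last => simp only [Fin.snoc_last]; rw [abs_sub_comm]; exact hd
      | cast i => simp only [Fin.snoc_castSucc]; exact h.2 _

/-- For each formula and each `ε`, similar tuples have `ε`-close values. -/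
theorem good {N : Type} [MetricSpace N] [Nonempty N] {S : Str L0 N} (hS : Nice S) {n : ℕ}
    (φ : Fml L0 n) : ∀ ε : ℝ, 0 < ε → ∀ᶠ δ in 𝓝[>] (0 : ℝ), ∀ v w : Fin n → N, Sim S δ v w →
      |(φ.eval S v : ℝ) - φ.eval S w| ≤ ε := by
  induction φ with
  | @d n i j =>
    intro ε hε
    refine Eventually.of_forall fun δ v w h => ?_
    change |dist (v i) (v j) - dist (w i) (w j)| ≤ ε
    by_cases hij : v i = v j
    · rw [(h.1 i j).1 hij, hij]; simp [hε.le]
    · rw [hS.disc _ _ hij, hS.disc _ _ (fun h' => hij ((h.1 i j).2 h'))]; simp [hε.le]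
  | @rel n P t =>
    intro ε hε
    filter_upwards [Ioo_mem_nhdsGT hε] with δ hδ v w h
    have h1 : ∀ v : Fin n → N, (Fml.rel P t).eval S v = pv S (v (t (0 : Fin 1))) := by
      intro v
      change S.pred () (fun i => v (t i)) = S.pred () (fun _ => v (t (0 : Fin 1)))
      congr 1
      funext i
      exact congrArg (fun i => v (t i)) (Subsingleton.elim (α := Fin 1) i 0)
    rw [h1, h1]
    exact (h.2 _).le.trans hδ.2.le
  | @conn n m u φ ih =>
    intro ε hε
    have huc := CompactSpace.uniformContinuous_of_continuous u.continuous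
    rw [Metric.uniformContinuous_iff] at huc
    obtain ⟨η, hη, hu⟩ := huc ε hε
    have h1 : ∀ᶠ δ in 𝓝[>] (0 : ℝ), ∀ i, ∀ v w : Fin n → N, Sim S δ v w →
        |((φ i).eval S v : ℝ) - (φ i).eval S w| ≤ η / 2 :=
      eventually_all.2 fun i => ih i (η / 2) (half_pos hη)
    filter_upwards [h1] with δ hδ v w h
    have h2 : dist (fun i => (φ i).eval S v) (fun i => (φ i).eval S w) < η := by
      refine lt_of_le_of_lt ((dist_pi_le_iff (half_pos hη).le).2 fun i => ?_) (half_lt_self hη)
      exact hδ i v w h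
    exact (hu h2).le
  | @sup n φ ih =>
    intro ε hε
    filter_upwards [ih ε hε, self_mem_nhdsWithin] with δ hδ hδ0 v w h
    have key : ∀ v w : Fin n → N, Sim S δ v w →
        (⨆ y : N, (φ.eval S (Fin.snoc v y) : ℝ)) ≤ (⨆ y : N, (φ.eval S (Fin.snoc w y) : ℝ)) + ε := by
      intro v w h
      apply ciSup_le
      intro y
      obtain ⟨y', hy'⟩ := h.extend hS hδ0 y
      have h1 := (abs_le.1 (hδ _ _ hy')).2
      have h2 : (φ.eval S (Fin.snoc w y') : ℝ) ≤ ⨆ y : N, (φ.eval S (Fin.snoc w y) : ℝ) :=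
        le_ciSup (f := fun y : N => (φ.eval S (Fin.snoc w y) : ℝ))
          ⟨1, by rintro _ ⟨z, rfl⟩; exact (φ.eval S (Fin.snoc w z)).2.2⟩ y'
      linarith
    change |(⨆ y : N, (φ.eval S (Fin.snoc v y) : ℝ)) - (⨆ y : N, (φ.eval S (Fin.snoc w y) : ℝ))| ≤ ε
    have h1 := key v w h
    have h2 := key w v h.symm
    rw [abs_le]
    constructor <;> linarith
  | @inf n φ ih =>
    intro ε hε
    filter_upwards [ih ε hε, self_mem_nhdsWithin] with δ hδ hδ0 v w h
    have key : ∀ v w : Fin n → N, Sim S δ v w →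
        (⨅ y : N, (φ.eval S (Fin.snoc v y) : ℝ)) - ε ≤ (⨅ y : N, (φ.eval S (Fin.snoc w y) : ℝ)) := by
      intro v w h
      apply le_ciInf
      intro y
      obtain ⟨y', hy'⟩ := h.symm.extend hS hδ0 y
      have h1 := (abs_le.1 (hδ _ _ hy')).1
      have h2 : (⨅ y : N, (φ.eval S (Fin.snoc v y) : ℝ)) ≤ (φ.eval S (Fin.snoc v y') : ℝ) :=
        ciInf_le (f := fun y : N => (φ.eval S (Fin.snoc v y) : ℝ))
          ⟨0, by rintro _ ⟨z, rfl⟩; exact (φ.eval S (Fin.snoc v z)).2.1⟩ y'
      linarith
    change |(⨅ y : N, (φ.eval S (Fin.snoc v y) : ℝ)) - (⨅ y : N, (φ.eval S (Fin.snoc w y) : ℝ))| ≤ ε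
    have h1 := key v w h
    have h2 := key w v h.symm
    rw [abs_le]
    constructor <;> linarith

end Pool.Agent.H52DD
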