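import Pool.Agent.H52DD.Model

set_option autoImplicit false

namespace Pool.Agent.H52DD

open Filter Topology

/-! ### Stability -/

theorem ultra_iff (U : Ultrafilter ℕ) (R : ℕ → Prop) :
    ∀ᶠ i in (U : Filter ℕ), ∀ᶠ j in (U : Filter ℕ), (R i ↔ R j) := by
  rcases U.em R with h | h
  · filter_upwards [h] with i hi
    filter_upwards [h] with j hj
    exact iff_of_true hi hj
  · filter_upwards [h] with i hi
    filter_upwards [h] with j hj
    exact iff_of_false hi hj

theorem ultra_cross {N : Type} (U : Ultrafilter ℕ) (s t : ℕ → N) :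
    ∀ᶠ i in (U : Filter ℕ), ∀ᶠ j in (U : Filter ℕ), (s i = t j ↔ s j = t i) := by
  by_cases hs : ∃ c, ∀ᶠ i in (U : Filter ℕ), s i = c
  · obtain ⟨c, hc⟩ := hs
    filter_upwards [hc, ultra_iff U (fun i => c = t i)] with i hi h
    filter_upwards [hc, h] with j hj hij
    rw [hi, hj]
    exact hij.symm
  · have hs' : ∀ c, ∀ᶠ i in (U : Filter ℕ), s i ≠ c := by
      intro c
      rcases U.em (fun i => s i = c) with h | h
      · exact absurd ⟨c, h⟩ hs
      · exact h
    by_cases ht : ∃ c, ∀ᶠ i in (U : Filter ℕ), t i = c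
    · obtain ⟨c, hc⟩ := ht
      filter_upwards [hs' c] with i hi
      filter_upwards [hc, hs' (t i)] with j hj hij
      rw [hj]
      exact iff_of_false hi hij
    · have ht' : ∀ c, ∀ᶠ i in (U : Filter ℕ), t i ≠ c := by
        intro c
        rcases U.em (fun i => t i = c) with h | h
        · exact absurd ⟨c, h⟩ ht
        · exact h
      refine Eventually.of_forall fun i => ?_
      filter_upwards [hs' (t i), ht' (s i)] with j h1 h2
      exact iff_of_false h2.symm h1

theorem ultra_close (U : Ultrafilter ℕ) (f : ℕ → unitInterval) (δ : ℝ) (hδ : 0 < δ) :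
    ∀ᶠ i in (U : Filter ℕ), ∀ᶠ j in (U : Filter ℕ), |(f i : ℝ) - f j| < δ := by
  have h := (U.map f).le_nhds_lim
  have h1 : ∀ᶠ i in (U : Filter ℕ), dist (f i) (U.map f).lim < δ / 2 := by
    have : ∀ᶠ x in ((U.map f : Ultrafilter unitInterval) : Filter unitInterval),
        dist x (U.map f).lim < δ / 2 := h (Metric.ball_mem_nhds _ (half_pos hδ))
    exact this
  filter_upwards [h1] with i hi
  filter_upwards [h1] with j hj
  have h2 := dist_triangle_right (f i) (f j) (U.map f).lim
  change dist (f i) (f j) < δ
  linarith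

theorem stable_of_nice {N : Type} [MetricSpace N] [Nonempty N] {S : Str L0 N} (hS : Nice S)
    (n m : ℕ) (φ : Fml L0 (n + m)) (ε : ℝ) (hε : 0 < ε) :
    ¬ ∃ (a : ℕ → Fin n → N) (b : ℕ → Fin m → N), ∀ i j : ℕ, i < j →
      ε ≤ |(φ.eval S (Fin.append (a i) (b j)) : ℝ) - φ.eval S (Fin.append (a j) (b i))| := by
  rintro ⟨a, b, hab⟩
  obtain ⟨δ, hδ, hδ0⟩ := ((good hS φ (ε / 2) (half_pos hε)).and self_mem_nhdsWithin).exists
  have hδ0' : 0 < δ := hδ0
  let U : Ultrafilter ℕ := hyperfilter ℕ
  have hlt : ∀ i : ℕ, ∀ᶠ j in (U : Filter ℕ), i < j := fun i =>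
    Nat.hyperfilter_le_atTop (eventually_gt_atTop i)
  have h1 : ∀ᶠ i in (U : Filter ℕ), ∀ᶠ j in (U : Filter ℕ), ∀ p q : Fin n,
      (a i p = a i q ↔ a j p = a j q) := by
    have : ∀ᶠ i in (U : Filter ℕ), ∀ p q : Fin n, ∀ᶠ j in (U : Filter ℕ),
        (a i p = a i q ↔ a j p = a j q) :=
      eventually_all.2 fun p => eventually_all.2 fun q => ultra_iff U (fun i => a i p = a i q)
    filter_upwards [this] with i hi
    exact eventually_all.2 fun p => eventually_all.2 fun q => hi p q
  have h2 : ∀ᶠ i in (U : Filter ℕ), ∀ᶠ j in (U : Filter ℕ), ∀ p q : Fin m,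
      (b i p = b i q ↔ b j p = b j q) := by
    have : ∀ᶠ i in (U : Filter ℕ), ∀ p q : Fin m, ∀ᶠ j in (U : Filter ℕ),
        (b i p = b i q ↔ b j p = b j q) :=
      eventually_all.2 fun p => eventually_all.2 fun q => ultra_iff U (fun i => b i p = b i q)
    filter_upwards [this] with i hi
    exact eventually_all.2 fun p => eventually_all.2 fun q => hi p q
  have h3 : ∀ᶠ i in (U : Filter ℕ), ∀ᶠ j in (U : Filter ℕ), ∀ (p : Fin n) (q : Fin m),
      (a i p = b j q ↔ a j p = b i q) := by
    have : ∀ᶠ i in (U : Filter ℕ), ∀ (p : Fin n) (q : Fin m), ∀ᶠ j in (U : Filter ℕ),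
        (a i p = b j q ↔ a j p = b i q) :=
      eventually_all.2 fun p => eventually_all.2 fun q =>
        ultra_cross U (fun i => a i p) (fun i => b i q)
    filter_upwards [this] with i hi
    exact eventually_all.2 fun p => eventually_all.2 fun q => hi p q
  have h4 : ∀ᶠ i in (U : Filter ℕ), ∀ᶠ j in (U : Filter ℕ), ∀ p : Fin n,
      |(pv S (a i p) : ℝ) - pv S (a j p)| < δ := by
    have : ∀ᶠ i in (U : Filter ℕ), ∀ p : Fin n, ∀ᶠ j in (U : Filter ℕ),
        |(pv S (a i p) : ℝ) - pv S (a j p)| < δ :=
      eventually_all.2 fun p => ultra_close U (fun i => pv S (a i p)) δ hδ0'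
    filter_upwards [this] with i hi
    exact eventually_all.2 fun p => hi p
  have h5 : ∀ᶠ i in (U : Filter ℕ), ∀ᶠ j in (U : Filter ℕ), ∀ q : Fin m,
      |(pv S (b i q) : ℝ) - pv S (b j q)| < δ := by
    have : ∀ᶠ i in (U : Filter ℕ), ∀ q : Fin m, ∀ᶠ j in (U : Filter ℕ),
        |(pv S (b i q) : ℝ) - pv S (b j q)| < δ :=
      eventually_all.2 fun q => ultra_close U (fun i => pv S (b i q)) δ hδ0'
    filter_upwards [this] with i hi
    exact eventually_all.2 fun q => hi q
  obtain ⟨i, hi1, hi2, hi3, hi4, hi5⟩ := (h1.and (h2.and (h3.and (h4.and h5)))).exists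
  obtain ⟨j, hij, hj1, hj2, hj3, hj4, hj5⟩ :=
    ((hlt i).and (hi1.and (hi2.and (hi3.and (hi4.and hi5))))).exists
  have hsim : Sim S δ (Fin.append (a i) (b j)) (Fin.append (a j) (b i)) := by
    constructor
    · intro p q
      induction p using Fin.addCases with
      | left p =>
        induction q using Fin.addCases with
        | left q => simp only [Fin.append_left]; exact hj1 p q
        | right q => simp only [Fin.append_left, Fin.append_right]; exact hj3 p q
      | right p =>
        induction q using Fin.addCases with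
        | left q =>
          simp only [Fin.append_left, Fin.append_right]
          rw [eq_comm, eq_comm (a := b i p)]; exact hj3 q p
        | right q => simp only [Fin.append_right]; exact (hj2 p q).symm
    · intro p
      induction p using Fin.addCases with
      | left p => simp only [Fin.append_left]; exact hj4 p
      | right p => simp only [Fin.append_right]; rw [abs_sub_comm]; exact hj5 p
  have hc := hδ _ _ hsim
  have hd := hab i j hij
  linarith

theorem stable_Th : Stable (Th S0) := by
  intro M _ _ _ S hM n m φ ε hε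
  exact stable_of_nice (nice_of_models S hM) n m φ ε hε

/-! ### d-definable sets -/

/-- In every model, over every set of parameters, a d-definable set of elements is contained in a
finite set of parameters, or contains everything outside a finite set of parameters. -/
theorem ddef_trivial {N : Type} [MetricSpace N] [Nonempty N] {S : Str L0 N} (hS : Nice S)
    (A : Set N) (D : Set (Fin 1 → N)) (hD : DDef S A D) :
    ∃ F : Set N, F.Finite ∧ F ⊆ A ∧ ((∀ x ∈ D, x 0 ∈ F) ∨ ∀ x, x 0 ∉ F → x ∈ D) := by
  obtain ⟨m, c, φ, hc, hφ⟩ := hD.2 (1 / 4) (by norm_num)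
  refine ⟨Set.range c, Set.finite_range c, by rintro _ ⟨i, rfl⟩; exact hc i, ?_⟩
  obtain ⟨δ, hδ, hδ0⟩ := ((good hS φ (1 / 4) (by norm_num)).and self_mem_nhdsWithin).exists
  have hδ0' : 0 < δ := hδ0
  rcases D.eq_empty_or_nonempty with hDe | hDne
  · left; rw [hDe]; intro x hx; exact absurd hx (Set.notMem_empty x)
  have inv : ∀ x y : Fin 1 → N, x 0 ∉ Set.range c → y 0 ∉ Set.range c →
      |(pv S (x 0) : ℝ) - pv S (y 0)| < δ → x ∈ D → y ∈ D := by
    intro x y hx hy hxy hxD
    have hsim : Sim S δ (Fin.append x c) (Fin.append y c) := by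
      constructor
      · intro p q
        induction p using Fin.addCases with
        | left p =>
          have hp : p = 0 := Subsingleton.elim _ _
          subst hp
          induction q using Fin.addCases with
          | left q =>
            have hq : q = 0 := Subsingleton.elim _ _
            subst hq
            simp only [Fin.append_left]
          | right q =>
            simp only [Fin.append_left, Fin.append_right]
            exact iff_of_false (fun h => hx ⟨q, h.symm⟩) (fun h => hy ⟨q, h.symm⟩)
        | right p =>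
          induction q using Fin.addCases with
          | left q =>
            have hq : q = 0 := Subsingleton.elim _ _
            subst hq
            simp only [Fin.append_left, Fin.append_right]
            exact iff_of_false (fun h => hx ⟨p, h⟩) (fun h => hy ⟨p, h⟩)
          | right q => simp only [Fin.append_right]
      · intro p
        induction p using Fin.addCases with
        | left p =>
          have hp : p = 0 := Subsingleton.elim _ _
          subst hp
          simp only [Fin.append_left]; exact hxy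
        | right p => simp only [Fin.append_right, sub_self, abs_zero]; exact hδ0'
    have h1 := abs_le.1 (hδ _ _ hsim)
    have h2 := abs_le.1 (hφ x)
    have h3 := abs_le.1 (hφ y)
    have h4 : Metric.infDist x D = 0 := Metric.infDist_zero_of_mem hxD
    have h5 : Metric.infDist y D < 1 := by
      beta_reduce at h2 h3
      rw [h4] at h2
      linarith [h1.1, h1.2, h2.1, h2.2, h3.1, h3.2]
    obtain ⟨z, hz, hyz⟩ := (Metric.infDist_lt_iff hDne).1 h5
    have h6 : y = z := by
      funext i
      by_contra hne
      have := hS.disc _ _ hne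
      have h7 := dist_le_pi_dist y z i
      linarith
    rw [h6]; exact hz
  let E : Set unitInterval := {t | ∃ x : Fin 1 → N, x 0 ∉ Set.range c ∧ x ∈ D ∧
    dist t (pv S (x 0)) < δ / 2}
  let E' : Set unitInterval := {t | ∃ x : Fin 1 → N, x 0 ∉ Set.range c ∧ x ∉ D ∧
    dist t (pv S (x 0)) < δ / 2}
  have hE : IsOpen E := by
    rw [Metric.isOpen_iff]
    rintro t ⟨x, h1, h2, h3⟩
    refine ⟨δ / 2 - dist t (pv S (x 0)), by linarith, fun s hs => ⟨x, h1, h2, ?_⟩⟩
    have h4 := dist_triangle s t (pv S (x 0))
    rw [Metric.mem_ball] at hs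
    linarith
  have hE' : IsOpen E' := by
    rw [Metric.isOpen_iff]
    rintro t ⟨x, h1, h2, h3⟩
    refine ⟨δ / 2 - dist t (pv S (x 0)), by linarith, fun s hs => ⟨x, h1, h2, ?_⟩⟩
    have h4 := dist_triangle s t (pv S (x 0))
    rw [Metric.mem_ball] at hs
    linarith
  have hdisj : ∀ t, t ∈ E → t ∈ E' → False := by
    rintro t ⟨x, h1, h2, h3⟩ ⟨y, h4, h5, h6⟩
    apply h5
    apply inv x y h1 h4 _ h2
    have h7 := dist_triangle_left (pv S (x 0)) (pv S (y 0)) t
    change dist (pv S (x 0)) (pv S (y 0)) < δ
    linarith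
  have hcov : ∀ t, t ∈ E ∨ t ∈ E' := by
    intro t
    obtain ⟨y, hy1, hy2⟩ := hS.many m c t (δ / 2) (half_pos hδ0')
    have hy3 : y ∉ Set.range c := by rintro ⟨i, hi⟩; exact hy1 i hi.symm
    have hy4 : dist t (pv S y) < δ / 2 := by rw [dist_comm]; exact hy2
    by_cases hyD : (fun _ => y : Fin 1 → N) ∈ D
    · left; exact ⟨fun _ => y, hy3, hyD, hy4⟩
    · right; exact ⟨fun _ => y, hy3, hyD, hy4⟩
  have hcl : IsClopen E := by
    refine ⟨?_, hE⟩
    have : E = E'ᶜ := by
      ext t
      constructor
      · intro h h'; exact hdisj t h h'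
      · intro h; exact (hcov t).resolve_right h
    rw [this]
    exact hE'.isClosed_compl
  rcases isClopen_iff.1 hcl with h | h
  · left
    intro x hx
    by_contra hxc
    have : pv S (x 0) ∈ E := ⟨x, hxc, hx, by rw [dist_self]; exact half_pos hδ0'⟩
    rw [h] at this
    exact this
  · right
    intro x hxc
    by_contra hx
    have h1 : pv S (x 0) ∈ E' := ⟨x, hxc, hx, by rw [dist_self]; exact half_pos hδ0'⟩
    have h2 : pv S (x 0) ∈ E := by rw [h]; trivial
    exact hdisj _ h2 h1

/-- Elements with different values of `P` have different types over every set. -/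
theorem pv_eq_of_sameType {N : Type} [MetricSpace N] {S : Str L0 N} {A : Set N}
    {x y : Fin 1 → N} (h : SameType S A x y) : pv S (x 0) = pv S (y 0) := by
  have := h 0 Fin.elim0 (fun i => i.elim0) (.rel () (fun _ => (0 : Fin 1)))
  exact this

end Pool.Agent.H52DD
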