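import Pool.Agent.H52DD.Stab

set_option autoImplicit false

namespace Pool.Agent.H52DD

open Filter Topology Cardinal

theorem eq_of_sim {N : Type} [MetricSpace N] [Nonempty N] {S : Str L0 N} (hS : Nice S) {n : ℕ}
    (φ : Fml L0 n) {v w : Fin n → N} (h : ∀ δ : ℝ, 0 < δ → Sim S δ v w) :
    φ.eval S v = φ.eval S w := by
  apply Subtype.ext
  apply eq_of_abs_sub_nonpos
  apply le_of_forall_pos_le_add
  intro ε hε
  rw [zero_add]
  obtain ⟨δ, hδ, hδ0⟩ := ((good hS φ ε hε).and self_mem_nhdsWithin).exists
  exact hδ v w (h δ hδ0)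

open Classical in
/-- The invariants of a tuple over `A`. -/
noncomputable def inv {N : Type} [MetricSpace N] (S : Str L0 N) (A : Set N) {n : ℕ}
    (x : Fin n → N) : (Fin n → A ⊕ unitInterval) × (Fin n → Fin n → Prop) :=
  (fun i => if h : x i ∈ A then Sum.inl ⟨x i, h⟩ else Sum.inr (pv S (x i)), fun i j => x i = x j)

theorem sameType_of_inv {N : Type} [MetricSpace N] [Nonempty N] {S : Str L0 N} (hS : Nice S)
    {A : Set N} {n : ℕ} {x y : Fin n → N} (h : inv S A x = inv S A y) : SameType S A x y := by
  intro m c hc φ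
  have h2 : ∀ i j, x i = x j ↔ y i = y j := fun i j =>
    iff_of_eq (congrFun (congrFun (congrArg Prod.snd h) i) j)
  have h1 : ∀ i, (x i ∈ A ∧ x i = y i) ∨ (x i ∉ A ∧ y i ∉ A ∧ pv S (x i) = pv S (y i)) := by
    intro i
    have h3 := congrFun (congrArg Prod.fst h) i
    simp only [inv] at h3
    by_cases hx : x i ∈ A <;> by_cases hy : y i ∈ A
    · left
      rw [dif_pos hx, dif_pos hy] at h3
      exact ⟨hx, congrArg Subtype.val (Sum.inl_injective h3)⟩
    · rw [dif_pos hx, dif_neg hy] at h3; exact absurd h3 Sum.inl_ne_inr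
    · rw [dif_neg hx, dif_pos hy] at h3; exact absurd h3 Sum.inr_ne_inl
    · right
      rw [dif_neg hx, dif_neg hy] at h3
      exact ⟨hx, hy, Sum.inr_injective h3⟩
  have h3 : ∀ i (z : N), z ∈ A → (x i = z ↔ y i = z) := by
    intro i z hz
    rcases h1 i with ⟨_, h4⟩ | ⟨h4, h5, _⟩
    · rw [h4]
    · exact iff_of_false (fun h => h4 (h ▸ hz)) (fun h => h5 (h ▸ hz))
  have h4 : ∀ i, pv S (x i) = pv S (y i) := by
    intro i
    rcases h1 i with ⟨_, h5⟩ | ⟨_, _, h5⟩
    · rw [h5]
    · exact h5
  apply eq_of_sim hS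
  intro δ hδ
  constructor
  · intro p q
    induction p using Fin.addCases with
    | left p =>
      induction q using Fin.addCases with
      | left q => simp only [Fin.append_left]; exact h2 p q
      | right q => simp only [Fin.append_left, Fin.append_right]; exact h3 p _ (hc q)
    | right p =>
      induction q using Fin.addCases with
      | left q =>
        simp only [Fin.append_left, Fin.append_right]
        rw [eq_comm, eq_comm (a := c p)]
        exact h3 q _ (hc p)
      | right q => simp only [Fin.append_right]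
  · intro p
    induction p using Fin.addCases with
    | left p => simp only [Fin.append_left]; rw [h4, sub_self, abs_zero]; exact hδ
    | right p => simp only [Fin.append_right, sub_self, abs_zero]; exact hδ

theorem superstable_Th : Superstable (Th S0) := by
  refine ⟨𝔠, fun κ hκ M _ _ _ S hM A hA n => ?_⟩
  have hS := nice_of_models S hM
  have hω : ℵ₀ ≤ κ := aleph0_le_continuum.trans hκ
  refine ⟨Set.range fun r : Set.range (inv S A (n := n)) => r.2.choose, ?_, ?_⟩
  · refine mk_range_le.trans ?_
    refine (mk_set_le _).trans ?_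
    rw [mk_prod, lift_id, lift_id]
    have h1 : #(Fin n → A ⊕ unitInterval) ≤ κ := by
      have h2 : #(A ⊕ unitInterval) ≤ κ := by
        rw [mk_sum, lift_id, lift_id]
        apply add_le_of_le hω hA
        refine le_trans ?_ hκ
        exact (mk_set_le _).trans mk_real.le
      have h3 : #(Fin n → A ⊕ unitInterval) = #(A ⊕ unitInterval) ^ n := by simp
      rw [h3]
      exact (power_le_power_right h2).trans (by exact_mod_cast power_nat_le hω)
    have h2 : #(Fin n → Fin n → Prop) ≤ κ := (lt_aleph0_of_finite _).le.trans hω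
    exact (mul_le_mul' h1 h2).trans (mul_eq_self hω).le
  · intro x
    refine ⟨_, ⟨⟨inv S A x, x, rfl⟩, rfl⟩, ?_⟩
    apply sameType_of_inv hS
    exact (Exists.choose_spec (p := fun y => inv S A y = inv S A x) ⟨x, rfl⟩).symm

end Pool.Agent.H52DD
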